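import Pool.Agent.Helper84.Chan.Small

/-!
The error probability on a symmetric channel, and the strong converse.
-/

set_option autoImplicit false

namespace Pool.Agent.Helper84.Chan

open Finset Filter Topology
open Pool.Agent.Helper89K9.GV (single_code)
open Pool.Agent.Results.MP_0430e4_lc.ConstantWeightCriterion (IsCode A R exists_A A_pos bdd_ge
  rateA)

variable {n : ℕ} {Y : Type} [Fintype Y]

/-- the error probability of the decoder `D` -/
noncomputable def errC (P : Bool → Y → ℝ) (C : Finset (Fin n → Bool))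
    (D : (Fin n → Y) → (Fin n → Bool)) : ℝ :=
  (∑ x ∈ C, ∑ y, if D y ≠ x then kc P x y else 0) / C.card

/-- the least error probability -/
noncomputable def optC (P : Bool → Y → ℝ) (C : Finset (Fin n → Bool)) : ℝ :=
  ⨅ D : (Fin n → Y) → (Fin n → Bool), errC P C D

/-- the largest error probability of a code of length `n` with minimum distance at least `δ n` -/
noncomputable def worstC (δ : ℝ) (P : Bool → Y → ℝ) (n : ℕ) : ℝ :=
  sSup {r : ℝ | ∃ C : Finset (Fin n → Bool), C.Nonempty ∧ IsCode ⌈δ * n⌉₊ C ∧ r = optC P C}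

variable {P : Bool → Y → ℝ} {π : Y → Y}

lemma errC_nonneg (h : Sym P π) (C : Finset (Fin n → Bool))
    (D : (Fin n → Y) → (Fin n → Bool)) : 0 ≤ errC P C D := by
  unfold errC
  apply div_nonneg _ (Nat.cast_nonneg _)
  apply Finset.sum_nonneg
  intro x _
  apply Finset.sum_nonneg
  intro y _
  split_ifs
  · exact kc_nonneg h _ _
  · exact le_rfl

lemma errC_le_one (h : Sym P π) (C : Finset (Fin n → Bool))
    (D : (Fin n → Y) → (Fin n → Bool)) : errC P C D ≤ 1 := by
  unfold errC
  apply div_le_one_of_le₀ _ (Nat.cast_nonneg _)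
  calc ∑ x ∈ C, ∑ y, (if D y ≠ x then kc P x y else 0) ≤ ∑ x ∈ C, ∑ y, kc P x y := by
        apply Finset.sum_le_sum
        intro x _
        apply Finset.sum_le_sum
        intro y _
        split_ifs
        · exact le_rfl
        · exact kc_nonneg h _ _
    _ = C.card := by
        rw [Finset.sum_congr rfl fun x _ => sum_kc h x]
        simp

lemma optC_le (h : Sym P π) (C : Finset (Fin n → Bool))
    (D : (Fin n → Y) → (Fin n → Bool)) : optC P C ≤ errC P C D :=
  ciInf_le ⟨0, by rintro _ ⟨D, rfl⟩; exact errC_nonneg h C D⟩ D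

lemma optC_nonneg (h : Sym P π) (C : Finset (Fin n → Bool)) : 0 ≤ optC P C :=
  Real.iInf_nonneg fun D => errC_nonneg h C D

lemma nonempty_out (h : Sym P π) : Nonempty Y := by
  by_contra hcon
  rw [not_nonempty_iff] at hcon
  have := h.sum false
  simp at this

lemma optC_le_one (h : Sym P π) (C : Finset (Fin n → Bool)) : optC P C ≤ 1 :=
  (optC_le h C (fun _ _ => false)).trans (errC_le_one h C _)

lemma le_optC (C : Finset (Fin n → Bool)) {r : ℝ}
    (hr : ∀ D, r ≤ errC P C D) : r ≤ optC P C :=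
  le_ciInf hr

lemma le_worstC (h : Sym P π) {δ : ℝ} {C : Finset (Fin n → Bool)}
    (hC : C.Nonempty) (hcode : IsCode ⌈δ * n⌉₊ C) : optC P C ≤ worstC δ P n :=
  le_csSup ⟨1, by rintro r ⟨D, hD, -, rfl⟩; exact optC_le_one h D⟩ ⟨C, hC, hcode, rfl⟩

lemma worstC_nonneg (h : Sym P π) (δ : ℝ) (n : ℕ) : 0 ≤ worstC δ P n :=
  (optC_nonneg h _).trans (le_worstC h (Finset.singleton_nonempty _) (single_code n _))

lemma worstC_le {δ r : ℝ} (hr : ∀ C : Finset (Fin n → Bool), C.Nonempty →
    IsCode ⌈δ * n⌉₊ C → optC P C ≤ r) : worstC δ P n ≤ r := by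
  have hne : {r : ℝ | ∃ C : Finset (Fin n → Bool), C.Nonempty ∧ IsCode ⌈δ * n⌉₊ C ∧
      r = optC P C}.Nonempty :=
    ⟨_, _, Finset.singleton_nonempty _, single_code n _, rfl⟩
  apply csSup_le hne
  rintro _ ⟨C, hC, hcode, rfl⟩
  exact hr C hC hcode

/-- **The comparison of the error probabilities.** -/
lemma optC_le_En (h : Sym P π) {C : Finset (Fin n → Bool)} (hC : C.Nonempty) {p : ℝ}
    (hp0 : 0 < p) (hp1 : p < 1 / 2)
    (hh : ∑ y, wt P y * Real.binEntropy (rt P y) ≤ Real.binEntropy p) :
    optC P C ≤ En (fun _ => p) C / C.card := by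
  obtain ⟨D, hD⟩ := map_bound h hC
  refine (optC_le h C D).trans ?_
  unfold errC
  apply div_le_div_of_nonneg_right _ (Nat.cast_nonneg _)
  refine hD.trans ?_
  rw [Ec_eq h]
  exact hybrid C hp0 hp1 (wt_nonneg h) (sum_wt h) (rt_nonneg h) (rt_le_one h) hh

/-- above the threshold of the capacity -/
lemma small {δ p : ℝ} (h : Sym P π) (hδ : 0 < δ) (h0 : 0 < p) (hp : p < Thresh.th δ)
    (hh : ∑ y, wt P y * Real.binEntropy (rt P y) ≤ Real.binEntropy p) :
    ∃ c : ℝ, 0 < c ∧ ∀ᶠ n : ℕ in atTop, worstC δ P n ≤ Real.exp (-(c * n)) := by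
  obtain ⟨c, hc, h1⟩ := En_small hδ h0 hp
  refine ⟨c, hc, ?_⟩
  filter_upwards [h1] with n hn
  apply worstC_le
  intro C hC hcode
  refine (optC_le_En h hC h0 (hp.trans_le (Thresh.th_le_half δ)) hh).trans ?_
  have hc : (0 : ℝ) < C.card := by exact_mod_cast hC.card_pos
  rw [div_le_iff₀ hc, mul_comm]
  exact hn C hC hcode

/-! ### the capacity -/

lemma wt_pi (h : Sym P π) (y : Y) : wt P (π y) = wt P y := by
  have h1 := h.symm false y
  have h2 := h.symm true y
  simp only [Bool.not_false, Bool.not_true] at h1 h2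
  unfold wt
  rw [h1, h2, add_comm]

lemma sum_pi (h : Sym P π) (g : Y → ℝ) : ∑ y, g (π y) = ∑ y, g y := by
  let e : Y ≃ Y := ⟨π, π, h.inv, h.inv⟩
  exact Fintype.sum_equiv e _ _ (fun y => rfl)

/-- the capacity in natural units -/
noncomputable def Cn (P : Bool → Y → ℝ) : ℝ :=
  ∑ b, ∑ y, P b y / 2 * Real.log (P b y / wt P y)

lemma wt_zero (h : Sym P π) {y : Y} (hy : wt P y = 0) (b : Bool) : P b y = 0 := by
  have h1 := h.nonneg false y
  have h2 := h.nonneg true y
  unfold wt at hy
  cases b <;> linarith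

lemma Cn_eq (h : Sym P π) :
    Cn P = Real.log 2 - ∑ y, wt P y * Real.binEntropy (rt P y) := by
  have e : ∀ y, P false y / 2 * Real.log (P false y / wt P y) +
      P true y / 2 * Real.log (P true y / wt P y) =
      wt P y * Real.log 2 - wt P y * Real.binEntropy (rt P y) := by
    intro y
    by_cases hy : wt P y = 0
    · rw [wt_zero h hy, wt_zero h hy, hy]
      simp
    · have e1 : ∀ b, P b y / 2 * Real.log (P b y / wt P y) =
          wt P y * (Helper89K9.GV.nz (rt P y) b false * Real.log 2 +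
            Helper89K9.GV.nz (rt P y) b false *
              Real.log (Helper89K9.GV.nz (rt P y) b false)) := by
        intro b
        rw [P_eq0 h b y]
        by_cases hz : Helper89K9.GV.nz (rt P y) b false = 0
        · rw [hz]
          simp
        · have e2 : 2 * wt P y * Helper89K9.GV.nz (rt P y) b false / wt P y =
              2 * Helper89K9.GV.nz (rt P y) b false := by
            field_simp
          rw [e2, Real.log_mul (by norm_num) hz]
          ring
      rw [e1, e1, Real.binEntropy_eq_negMulLog_add_negMulLog_one_sub]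
      unfold Helper89K9.GV.nz Real.negMulLog
      simp only [ne_eq, not_true_eq_false, if_false, Bool.true_eq_false, not_false_eq_true,
        if_true]
      ring
  unfold Cn
  rw [Fintype.sum_bool, ← Finset.sum_add_distrib]
  calc ∑ y, (P true y / 2 * Real.log (P true y / wt P y) +
        P false y / 2 * Real.log (P false y / wt P y)) =
      ∑ y, (wt P y * Real.log 2 - wt P y * Real.binEntropy (rt P y)) :=
        Finset.sum_congr rfl fun y _ => by rw [← e y, add_comm]
    _ = _ := by
      rw [Finset.sum_sub_distrib, ← Finset.sum_mul, sum_wt h, one_mul]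

/-- the moment of the density -/
noncomputable def Ms (P : Bool → Y → ℝ) (b : Bool) (s : ℝ) : ℝ :=
  ∑ y, P b y * (P b y / wt P y) ^ s

lemma Ms_true (h : Sym P π) (s : ℝ) : Ms P true s = Ms P false s := by
  unfold Ms
  rw [← sum_pi h]
  apply Finset.sum_congr rfl
  intro y _
  have h1 := h.symm false y
  simp only [Bool.not_false] at h1
  rw [h1, wt_pi h]

lemma Ms_eq (h : Sym P π) (b : Bool) (s : ℝ) : Ms P b s = Ms P false s := by
  cases b
  · rfl
  · exact Ms_true h s

lemma Cn_false (h : Sym P π) : Cn P = ∑ y, P false y * Real.log (P false y / wt P y) := by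
  unfold Cn
  rw [Fintype.sum_bool]
  have e : ∑ y, P true y / 2 * Real.log (P true y / wt P y) =
      ∑ y, P false y / 2 * Real.log (P false y / wt P y) := by
    rw [← sum_pi h]
    apply Finset.sum_congr rfl
    intro y _
    have h1 := h.symm false y
    simp only [Bool.not_false] at h1
    rw [h1, wt_pi h]
  rw [e, ← Finset.sum_add_distrib]
  apply Finset.sum_congr rfl
  intro y _
  ring

lemma ratio_pos (h : Sym P π) {y : Y} {b : Bool} (hb : P b y ≠ 0) : 0 < P b y / wt P y := by
  have h1 := lt_of_le_of_ne (h.nonneg b y) (Ne.symm hb)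
  have h2 : wt P y ≠ 0 := fun h3 => hb (wt_zero h h3 b)
  exact div_pos h1 (lt_of_le_of_ne (wt_nonneg h y) (Ne.symm h2))

lemma Ms_zero (h : Sym P π) : Ms P false 0 = 1 := by
  unfold Ms
  simp [h.sum]

lemma Ms_deriv (h : Sym P π) : HasDerivAt (Ms P false) (Cn P) 0 := by
  rw [Cn_false h]
  unfold Ms
  apply HasDerivAt.fun_sum
  intro y _
  by_cases hy : P false y = 0
  · rw [hy]
    simp only [zero_mul]
    exact hasDerivAt_const _ _
  · have h2 := (Real.hasStrictDerivAt_const_rpow (ratio_pos h hy) 0).hasDerivAt.const_mul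
      (P false y)
    rw [Real.rpow_zero, one_mul] at h2
    exact h2

lemma exists_s (h : Sym P π) {τ : ℝ} (hτ : Cn P < τ) :
    ∃ s : ℝ, 0 < s ∧ Ms P false s ≤ Real.exp (s * τ) := by
  have h1 := (hasDerivAt_iff_tendsto_slope_zero.1 (Ms_deriv h))
  have h2 : ∀ᶠ t in 𝓝[≠] (0 : ℝ), t⁻¹ • (Ms P false (0 + t) - Ms P false 0) < τ :=
    h1.eventually (gt_mem_nhds hτ)
  have h3 : ∀ᶠ t in 𝓝[>] (0 : ℝ), t⁻¹ • (Ms P false (0 + t) - Ms P false 0) < τ :=
    h2.filter_mono (nhdsWithin_mono (0 : ℝ) (s := Set.Ioi 0) (t := {0}ᶜ)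
      (fun x hx => (ne_of_gt hx : x ≠ 0)))
  obtain ⟨s, hs1, hs2⟩ := (h3.and self_mem_nhdsWithin).exists
  have hs : 0 < s := hs2
  refine ⟨s, hs, ?_⟩
  rw [zero_add, Ms_zero h, smul_eq_mul, inv_mul_lt_iff₀ hs] at hs1
  have := Real.add_one_le_exp (s * τ)
  linarith

/-- the probability of a correct decoding -/
lemma correct_le (h : Sym P π) {s T : ℝ} (hs : 0 ≤ s) (hT : 0 < T) (C : Finset (Fin n → Bool))
    (D : (Fin n → Y) → (Fin n → Bool)) :
    ∑ x ∈ C, ∑ y, (if D y = x then kc P x y else 0) ≤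
      T + C.card * (T ^ (-s) * Ms P false s ^ n) := by
  classical
  set W : (Fin n → Y) → ℝ := fun y => ∏ i, wt P (y i) with hW
  set u : (Fin n → Bool) → (Fin n → Y) → ℝ := fun x y => ∏ i, P (x i) (y i) / wt P (y i) with hu
  have hW0 : ∀ y, 0 ≤ W y := fun y => Finset.prod_nonneg fun _ _ => wt_nonneg h _
  have hu0 : ∀ x y, 0 ≤ u x y := fun x y =>
    Finset.prod_nonneg fun _ _ => div_nonneg (h.nonneg _ _) (wt_nonneg h _)
  have hk : ∀ x y, kc P x y = W y * u x y := by
    intro x y
    simp only [hW, hu]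
    rw [← Finset.prod_mul_distrib]
    unfold kc
    apply Finset.prod_congr rfl
    intro i _
    by_cases hy : wt P (y i) = 0
    · rw [wt_zero h hy, hy]
      simp
    · field_simp
  have h1 : ∀ x y, (if D y = x then kc P x y else 0) ≤
      (if D y = x then T * W y else 0) + T ^ (-s) * (kc P x y * u x y ^ s) := by
    intro x y
    have hr : 0 ≤ T ^ (-s) * (kc P x y * u x y ^ s) :=
      mul_nonneg (Real.rpow_nonneg hT.le _) (mul_nonneg (kc_nonneg h _ _)
        (Real.rpow_nonneg (hu0 _ _) _))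
    split_ifs with hD
    · rcases le_or_gt (u x y) T with hle | hgt
      · have : kc P x y ≤ T * W y := by
          rw [hk, mul_comm]
          exact mul_le_mul_of_nonneg_right hle (hW0 y)
        linarith
      · have h2 : T ^ s ≤ u x y ^ s := Real.rpow_le_rpow hT.le hgt.le hs
        have h3 : 1 ≤ T ^ (-s) * u x y ^ s := by
          rw [Real.rpow_neg hT.le, inv_mul_eq_div, le_div_iff₀ (Real.rpow_pos_of_pos hT s),
            one_mul]
          exact h2
        have h4 := mul_le_mul_of_nonneg_left h3 (kc_nonneg h x y)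
        have h5 := mul_nonneg hT.le (hW0 y)
        calc kc P x y = kc P x y * 1 := (mul_one _).symm
          _ ≤ kc P x y * (T ^ (-s) * u x y ^ s) := h4
          _ = T ^ (-s) * (kc P x y * u x y ^ s) := by ring
          _ ≤ _ := by linarith
    · linarith
  have h2 : ∀ x, ∑ y, kc P x y * u x y ^ s = Ms P false s ^ n := by
    intro x
    have e1 : ∀ y, kc P x y * u x y ^ s =
        ∏ i, P (x i) (y i) * (P (x i) (y i) / wt P (y i)) ^ s := by
      intro y
      simp only [hu]
      rw [← Real.finsetProd_rpow _ _ (fun i _ => div_nonneg (h.nonneg _ _) (wt_nonneg h _)),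
        Finset.prod_mul_distrib]
      rfl
    simp_rw [e1]
    have h3 := Finset.prod_univ_sum (fun _ : Fin n => (univ : Finset Y))
      (fun i y => P (x i) y * (P (x i) y / wt P y) ^ s)
    rw [Fintype.piFinset_univ] at h3
    rw [← h3]
    have e2 : ∀ i, ∑ y, P (x i) y * (P (x i) y / wt P y) ^ s = Ms P false s :=
      fun i => Ms_eq h (x i) s
    simp_rw [e2]
    simp
  calc ∑ x ∈ C, ∑ y, (if D y = x then kc P x y else 0)
      ≤ ∑ x ∈ C, ∑ y, ((if D y = x then T * W y else 0) + T ^ (-s) * (kc P x y * u x y ^ s)) :=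
        Finset.sum_le_sum fun x _ => Finset.sum_le_sum fun y _ => h1 x y
    _ = ∑ x ∈ C, ∑ y, (if D y = x then T * W y else 0) +
        ∑ x ∈ C, ∑ y, T ^ (-s) * (kc P x y * u x y ^ s) := by
        rw [← Finset.sum_add_distrib]
        exact Finset.sum_congr rfl fun x _ => Finset.sum_add_distrib
    _ ≤ T + C.card * (T ^ (-s) * Ms P false s ^ n) := by
        apply add_le_add
        · rw [Finset.sum_comm]
          have h3 : ∀ y, ∑ x ∈ C, (if D y = x then T * W y else 0) ≤ T * W y := by
            intro y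
            rw [Finset.sum_ite_eq]
            split_ifs
            · exact le_rfl
            · exact mul_nonneg hT.le (hW0 y)
          refine (Finset.sum_le_sum fun y _ => h3 y).trans ?_
          rw [← Finset.mul_sum]
          have e3 : ∑ y, W y = 1 := sum_prod (sum_wt h)
          rw [e3, mul_one]
        · have e4 : ∀ x ∈ C, ∑ y, T ^ (-s) * (kc P x y * u x y ^ s) =
              T ^ (-s) * Ms P false s ^ n := by
            intro x _
            rw [← Finset.mul_sum, h2]
          rw [Finset.sum_congr rfl e4, Finset.sum_const, nsmul_eq_mul]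

/-- the error probability and the probability of a correct decoding -/
lemma errC_eq (h : Sym P π) {C : Finset (Fin n → Bool)} (hC : C.Nonempty)
    (D : (Fin n → Y) → (Fin n → Bool)) :
    errC P C D = 1 - (∑ x ∈ C, ∑ y, (if D y = x then kc P x y else 0)) / C.card := by
  have hc : (0 : ℝ) < C.card := by exact_mod_cast hC.card_pos
  have e : ∑ x ∈ C, ∑ y, (if D y ≠ x then kc P x y else 0) =
      C.card - ∑ x ∈ C, ∑ y, (if D y = x then kc P x y else 0) := by
    rw [eq_sub_iff_add_eq, ← Finset.sum_add_distrib]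
    have e2 : ∀ x ∈ C, (∑ y, (if D y ≠ x then kc P x y else 0)) +
        ∑ y, (if D y = x then kc P x y else 0) = 1 := by
      intro x _
      rw [← Finset.sum_add_distrib, ← sum_kc h x]
      apply Finset.sum_congr rfl
      intro y _
      by_cases hD : D y = x
      · simp [hD]
      · simp [hD]
    rw [Finset.sum_congr rfl e2]
    simp
  unfold errC
  rw [e, sub_div, div_self hc.ne']

/-- **The strong converse.** -/
theorem converse (h : Sym P π) {δ : ℝ} (hR : Cn P < R δ * Real.log 2) :
    ∃ c : ℝ, 0 < c ∧ ∃ᶠ n : ℕ in atTop, 1 - Real.exp (-(c * n)) ≤ worstC δ P n := by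
  have hlog : 0 < Real.log 2 := Real.log_pos (by norm_num)
  obtain ⟨τ, h1, h2⟩ := exists_between hR
  obtain ⟨τ', h3, h4⟩ := exists_between h2
  obtain ⟨ρ, h5, h6⟩ := exists_between h4
  obtain ⟨s, hs, hM⟩ := exists_s h h1
  have h7 : ρ / Real.log 2 < R δ := by
    rw [div_lt_iff₀ hlog]
    exact h6
  have h8 : ∃ᶠ n : ℕ in atTop, ρ / Real.log 2 < Real.logb 2 (A n ⌈δ * n⌉₊) / n :=
    frequently_lt_of_lt_limsup (bdd_ge (rateA δ)).isCoboundedUnder_flip h7
  set c1 : ℝ := min (ρ - τ') (s * (τ' - τ)) with hc1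
  have hc1p : 0 < c1 := lt_min (by linarith) (mul_pos hs (by linarith))
  have h9 : ∀ᶠ n : ℕ in atTop, 2 * Real.exp (-(c1 / 2 * n)) ≤ 1 := by
    have := (Thresh.tendsto_exp (by positivity : 0 < c1 / 2)).const_mul 2
    rw [mul_zero] at this
    exact (this.eventually (gt_mem_nhds one_pos)).mono fun n hn => hn.le
  refine ⟨c1 / 2, by positivity, (h8.and_eventually (h9.and (eventually_ge_atTop 1))).mono ?_⟩
  rintro n ⟨a1, a2, a3⟩
  have hn0 : (0 : ℝ) < n := by exact_mod_cast a3
  obtain ⟨C, hC, hcard⟩ := exists_A n ⌈δ * n⌉₊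
  have hA : (1 : ℝ) ≤ A n ⌈δ * n⌉₊ := by exact_mod_cast A_pos _ _
  have hCn : C.Nonempty := by
    rw [← Finset.card_pos, hcard]
    exact A_pos _ _
  have hc0 : (0 : ℝ) < C.card := by exact_mod_cast hCn.card_pos
  have hsize : Real.exp (ρ * n) ≤ C.card := by
    rw [hcard, lt_div_iff₀ hn0, Real.logb, lt_div_iff₀ hlog] at *
    rw [← Real.exp_log (by linarith : (0 : ℝ) < A n ⌈δ * n⌉₊)]
    apply Real.exp_le_exp.2
    have : ρ / Real.log 2 * n * Real.log 2 = ρ * n := by field_simp
    linarith
  refine le_trans ?_ (le_worstC h hCn hC)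
  apply le_optC
  intro D
  rw [errC_eq h hCn]
  have hcor := correct_le h hs.le (Real.exp_pos (τ' * n)) C D
  have e1 : Real.exp (τ' * n) ^ (-s) = Real.exp (-(s * τ' * n)) := by
    rw [← Real.exp_mul]
    congr 1
    ring
  have e2 : Ms P false s ^ n ≤ Real.exp (s * τ * n) := by
    have : Real.exp (s * τ * n) = Real.exp (s * τ) ^ n := by
      rw [← Real.exp_nat_mul]
      congr 1
      ring
    rw [this]
    apply pow_le_pow_left₀ _ hM
    unfold Ms
    exact Finset.sum_nonneg fun y _ => mul_nonneg (h.nonneg _ _)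
      (Real.rpow_nonneg (div_nonneg (h.nonneg _ _) (wt_nonneg h _)) _)
  have e3 : Real.exp (τ' * n) ^ (-s) * Ms P false s ^ n ≤ Real.exp (-(c1 * n)) := by
    rw [e1]
    calc Real.exp (-(s * τ' * n)) * Ms P false s ^ n
        ≤ Real.exp (-(s * τ' * n)) * Real.exp (s * τ * n) :=
          mul_le_mul_of_nonneg_left e2 (Real.exp_pos _).le
      _ = Real.exp (-(s * (τ' - τ) * n)) := by
          rw [← Real.exp_add]
          congr 1
          ring
      _ ≤ _ := by
          apply Real.exp_le_exp.2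
          have := mul_le_mul_of_nonneg_right (min_le_right (ρ - τ') (s * (τ' - τ))) hn0.le
          linarith
  have e4 : Real.exp (τ' * n) ≤ C.card * Real.exp (-(c1 * n)) := by
    calc Real.exp (τ' * n) = Real.exp (ρ * n) * Real.exp (-((ρ - τ') * n)) := by
          rw [← Real.exp_add]
          congr 1
          ring
      _ ≤ C.card * Real.exp (-((ρ - τ') * n)) :=
          mul_le_mul_of_nonneg_right hsize (Real.exp_pos _).le
      _ ≤ _ := by
          apply mul_le_mul_of_nonneg_left _ hc0.le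
          apply Real.exp_le_exp.2
          have := mul_le_mul_of_nonneg_right (min_le_left (ρ - τ') (s * (τ' - τ))) hn0.le
          linarith
  have e5 : (∑ x ∈ C, ∑ y, (if D y = x then kc P x y else 0)) / C.card ≤
      2 * Real.exp (-(c1 * n)) := by
    rw [div_le_iff₀ hc0]
    have := mul_le_mul_of_nonneg_left e3 hc0.le
    linarith
  have e6 : 2 * Real.exp (-(c1 * n)) ≤ Real.exp (-(c1 / 2 * n)) := by
    rw [show -(c1 * (n : ℝ)) = -(c1 / 2 * n) + -(c1 / 2 * n) by ring, Real.exp_add]
    have := mul_le_mul_of_nonneg_right a2 (Real.exp_pos (-(c1 / 2 * (n : ℝ)))).le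
    linarith
  linarith

end Pool.Agent.Helper84.Chan
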