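import Mathlib

/-!
The inequality of Mrs. Gerber, in the form of a supporting line.
-/

set_option autoImplicit false

namespace Pool.Agent.Helper84.Chan

open Set

/-- the derivative of the entropy -/
noncomputable def Lg (x : ℝ) : ℝ := Real.log (1 - x) - Real.log x

lemma L_ge {x : ℝ} (h0 : 0 < x) (h1 : x ≤ 1 / 2) : 2 * (1 - 2 * x) ≤ Lg x := by
  rcases eq_or_lt_of_le h1 with h | h
  · rw [h]
    unfold Lg
    norm_num
  have ht : |1 - 2 * x| < 1 := abs_lt.2 ⟨by linarith, by linarith⟩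
  have hs := Real.hasSum_log_sub_log_of_abs_lt_one ht
  have h2 := le_hasSum hs 0 (fun k _ => by
    have : (0 : ℝ) < 1 - 2 * x := by linarith
    positivity)
  have e : Real.log (1 + (1 - 2 * x)) - Real.log (1 - (1 - 2 * x)) = Lg x := by
    unfold Lg
    rw [show (1 : ℝ) + (1 - 2 * x) = 2 * (1 - x) by ring,
      show (1 : ℝ) - (1 - 2 * x) = 2 * x by ring, Real.log_mul (by norm_num) (by linarith),
      Real.log_mul (by norm_num) h0.ne']
    ring
  rw [e] at h2
  norm_num at h2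
  linarith

lemma L_pos {x : ℝ} (h0 : 0 < x) (h1 : x < 1 / 2) : 0 < Lg x := by
  have := L_ge h0 h1.le
  linarith

lemma L_nonneg {x : ℝ} (h0 : 0 < x) (h1 : x ≤ 1 / 2) : 0 ≤ Lg x := by
  have := L_ge h0 h1
  linarith

lemma L_anti {x y : ℝ} (h0 : 0 < x) (hxy : x ≤ y) (h1 : y < 1) : Lg y ≤ Lg x := by
  unfold Lg
  have e1 := Real.log_le_log h0 hxy
  have e2 := Real.log_le_log (by linarith : 0 < 1 - y) (by linarith : 1 - y ≤ 1 - x)
  linarith

lemma L_deriv {x : ℝ} (h0 : 0 < x) (h1 : x < 1) : HasDerivAt Lg (-(1 / (x * (1 - x)))) x := by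
  have h2 : HasDerivAt (fun x : ℝ => Real.log (1 - x)) (-1 / (1 - x)) x := by
    have := (hasDerivAt_id x).const_sub (1 : ℝ)
    exact this.log (by simp; linarith)
  have h3 := h2.sub (Real.hasDerivAt_log h0.ne')
  have h4 : (1 : ℝ) - x ≠ 0 := by linarith
  have h5 := h0.ne'
  have e : -(1 / (x * (1 - x))) = -1 / (1 - x) - x⁻¹ := by
    field_simp
    ring
  rw [e]
  exact h3

/-- `x (1 - x) Lg(x) / (1 - 2 x)` is increasing -/
lemma psi_mono : MonotoneOn (fun x : ℝ => x * (1 - x) * Lg x / (1 - 2 * x)) (Ioo 0 (1 / 2)) := by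
  have hd : ∀ x ∈ Ioo (0 : ℝ) (1 / 2), HasDerivAt (fun x : ℝ => x * (1 - x) * Lg x / (1 - 2 * x))
      (((((1 - 2 * x) * Lg x - 1) * (1 - 2 * x) + 2 * (x * (1 - x) * Lg x)) / (1 - 2 * x) ^ 2)) x := by
    intro x hx
    have hx2 : 1 - 2 * x ≠ 0 := by linarith [hx.2]
    have hx3 : 1 - x ≠ 0 := by linarith [hx.2]
    have hx4 : x ≠ 0 := hx.1.ne'
    have h1 := L_deriv hx.1 (by linarith [hx.2])
    have h2 : HasDerivAt (fun x : ℝ => x * (1 - x)) (1 * (1 - x) + x * (-1)) x :=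
      (hasDerivAt_id x).mul ((hasDerivAt_id x).const_sub 1)
    have h3 : HasDerivAt (fun x : ℝ => 1 - 2 * x) (-(2 * 1)) x :=
      ((hasDerivAt_id x).const_mul 2).const_sub 1
    have h4 := (h2.mul h1).div h3 hx2
    have e : ((((1 - 2 * x) * Lg x - 1) * (1 - 2 * x) + 2 * (x * (1 - x) * Lg x)) /
        (1 - 2 * x) ^ 2) = (((1 * (1 - x) + x * (-1)) * Lg x + x * (1 - x) *
          (-(1 / (x * (1 - x))))) * (1 - 2 * x) - x * (1 - x) * Lg x * -(2 * 1)) /
          (1 - 2 * x) ^ 2 := by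
      have e2 : x * (1 - x) * (-(1 / (x * (1 - x)))) = -1 := by
        field_simp
      rw [e2]
      congr 1
      ring
    rw [e]
    exact h4
  apply monotoneOn_of_deriv_nonneg (convex_Ioo _ _)
  · exact fun x hx => (hd x hx).continuousAt.continuousWithinAt
  · rw [interior_Ioo]
    exact fun x hx => (hd x hx).differentiableAt.differentiableWithinAt
  · rw [interior_Ioo]
    intro x hx
    rw [(hd x hx).deriv]
    have h1 := L_ge hx.1 hx.2.le
    have h2 : (0 : ℝ) < 1 - 2 * x := by linarith [hx.2]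
    apply div_nonneg _ (sq_nonneg _)
    have h3 : 1 ≤ 2 * (1 - 2 * x + 2 * x ^ 2) := by nlinarith [sq_nonneg (1 - 2 * x)]
    have h4 := mul_le_mul_of_nonneg_right h1 (by linarith : 0 ≤ 1 - 2 * x + 2 * x ^ 2)
    have h5 := mul_le_mul_of_nonneg_left h3 h2.le
    nlinarith

lemma r_lt {β q : ℝ} (hβ : β < 1 / 2) (hq : q < 1 / 2) : β + (1 - 2 * β) * q < 1 / 2 := by
  nlinarith

lemma le_r {β q : ℝ} (hβ : 0 ≤ β) (hq : q ≤ 1 / 2) : q ≤ β + (1 - 2 * β) * q := by
  nlinarith

lemma ratio_mono {β : ℝ} (hβ0 : 0 ≤ β) (hβ : β < 1 / 2) :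
    MonotoneOn (fun q : ℝ => Lg (β + (1 - 2 * β) * q) / Lg q) (Ioo 0 (1 / 2)) := by
  have hd : ∀ q ∈ Ioo (0 : ℝ) (1 / 2), HasDerivAt (fun q : ℝ => Lg (β + (1 - 2 * β) * q) / Lg q)
      ((-(1 / ((β + (1 - 2 * β) * q) * (1 - (β + (1 - 2 * β) * q)))) * (1 - 2 * β) * Lg q -
        Lg (β + (1 - 2 * β) * q) * (-(1 / (q * (1 - q))))) / Lg q ^ 2) q := by
    intro q hq
    have h1 := L_deriv hq.1 (by linarith [hq.2])
    have h2 := L_pos hq.1 hq.2
    have h3 := le_r hβ0 hq.2.le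
    have h4 := r_lt hβ hq.2
    have h5 := L_deriv (x := β + (1 - 2 * β) * q) (by linarith [hq.1]) (by linarith)
    have h6 : HasDerivAt (fun q : ℝ => β + (1 - 2 * β) * q) (1 - 2 * β) q := by
      simpa using ((hasDerivAt_id q).const_mul (1 - 2 * β)).const_add β
    exact (h5.comp q h6).div h1 h2.ne'
  apply monotoneOn_of_deriv_nonneg (convex_Ioo _ _)
  · exact fun x hx => (hd x hx).continuousAt.continuousWithinAt
  · rw [interior_Ioo]
    exact fun x hx => (hd x hx).differentiableAt.differentiableWithinAt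
  · rw [interior_Ioo]
    intro q hq
    rw [(hd q hq).deriv]
    apply div_nonneg _ (sq_nonneg _)
    have h3 := le_r hβ0 hq.2.le
    have h4 := r_lt hβ hq.2
    set r := β + (1 - 2 * β) * q with hr
    have h5 := psi_mono hq (⟨by linarith [hq.1], h4⟩ : r ∈ Ioo (0 : ℝ) (1 / 2)) h3
    have e1 : 1 - 2 * r = (1 - 2 * β) * (1 - 2 * q) := by rw [hr]; ring
    have g1 : (0 : ℝ) < 1 - 2 * q := by linarith [hq.2]
    have g2 : (0 : ℝ) < 1 - 2 * β := by linarith
    have g3 : 0 < q * (1 - q) := mul_pos hq.1 (by linarith [hq.2])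
    have g4 : 0 < r * (1 - r) := mul_pos (by linarith [hq.1]) (by linarith)
    beta_reduce at h5
    rw [e1, div_le_div_iff₀ g1 (mul_pos g2 g1)] at h5
    have h6 : q * (1 - q) * Lg q * (1 - 2 * β) ≤ r * (1 - r) * Lg r := by
      have : q * (1 - q) * Lg q * (1 - 2 * β) * (1 - 2 * q) ≤ r * (1 - r) * Lg r * (1 - 2 * q) := by
        linarith
      exact le_of_mul_le_mul_right this g1
    have e2 : -(1 / (r * (1 - r))) * (1 - 2 * β) * Lg q - Lg r * -(1 / (q * (1 - q))) =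
        (r * (1 - r) * Lg r - q * (1 - q) * Lg q * (1 - 2 * β)) / ((r * (1 - r)) * (q * (1 - q))) := by
      have n1 : q ≠ 0 := hq.1.ne'
      have n2 : 1 - q ≠ 0 := by linarith [hq.2]
      have n3 : r ≠ 0 := by linarith [hq.1]
      have n4 : 1 - r ≠ 0 := by linarith
      field_simp
      ring
    rw [e2]
    exact div_nonneg (by linarith) (by positivity)

/-- the supporting line -/
lemma line {β p : ℝ} (hβ0 : 0 ≤ β) (hβ : β ≤ 1 / 2) (hp0 : 0 < p) (hp : p < 1 / 2) :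
    ∃ σ : ℝ, 0 ≤ σ ∧ σ ≤ 1 ∧ ∀ q : ℝ, 0 ≤ q → q ≤ 1 / 2 →
      Real.binEntropy (β + (1 - 2 * β) * p) + σ * (Real.binEntropy q - Real.binEntropy p) ≤
        Real.binEntropy (β + (1 - 2 * β) * q) := by
  rcases eq_or_lt_of_le hβ with hb | hb
  · refine ⟨0, le_rfl, zero_le_one, fun q _ _ => ?_⟩
    rw [hb]
    norm_num
  have g2 : (0 : ℝ) < 1 - 2 * β := by linarith
  have hLp := L_pos hp0 hp
  have hr0 := le_r hβ0 hp.le
  have hr1 := r_lt hb hp
  have hLr := L_nonneg (x := β + (1 - 2 * β) * p) (by linarith) hr1.le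
  set σ := (1 - 2 * β) * Lg (β + (1 - 2 * β) * p) / Lg p with hσ
  have hσ0 : 0 ≤ σ := by positivity
  have hσ1 : σ ≤ 1 := by
    rw [hσ, div_le_one hLp]
    have := L_anti hp0 hr0 (by linarith)
    nlinarith
  refine ⟨σ, hσ0, hσ1, ?_⟩
  have hd : ∀ q ∈ Ioo (0 : ℝ) (1 / 2), HasDerivAt
      (fun q : ℝ => Real.binEntropy (β + (1 - 2 * β) * q) - σ * Real.binEntropy q)
      ((1 - 2 * β) * Lg (β + (1 - 2 * β) * q) - σ * Lg q) q := by
    intro q hq
    have h3 := le_r hβ0 hq.2.le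
    have h4 := r_lt hb hq.2
    have h5 := Real.hasDerivAt_binEntropy (p := β + (1 - 2 * β) * q) (by linarith [hq.1])
      (by linarith)
    have h6 : HasDerivAt (fun q : ℝ => β + (1 - 2 * β) * q) (1 - 2 * β) q := by
      simpa using ((hasDerivAt_id q).const_mul (1 - 2 * β)).const_add β
    have h7 := (h5.comp q h6).sub
      ((Real.hasDerivAt_binEntropy hq.1.ne' (by linarith [hq.2])).const_mul σ)
    have e : (1 - 2 * β) * Lg (β + (1 - 2 * β) * q) - σ * Lg q =
        (Real.log (1 - (β + (1 - 2 * β) * q)) - Real.log (β + (1 - 2 * β) * q)) * (1 - 2 * β) -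
          σ * (Real.log (1 - q) - Real.log q) := by
      unfold Lg
      ring
    rw [e]
    exact h7
  have hc : Continuous (fun q : ℝ => Real.binEntropy (β + (1 - 2 * β) * q) -
      σ * Real.binEntropy q) :=
    (Real.binEntropy_continuous.comp (by fun_prop)).sub
      (continuous_const.mul Real.binEntropy_continuous)
  have hanti : AntitoneOn (fun q : ℝ => Real.binEntropy (β + (1 - 2 * β) * q) -
      σ * Real.binEntropy q) (Icc 0 p) := by
    apply antitoneOn_of_deriv_nonpos (convex_Icc _ _) hc.continuousOn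
    · rw [interior_Icc]
      exact fun x hx => (hd x ⟨hx.1, hx.2.trans hp⟩).differentiableAt.differentiableWithinAt
    · rw [interior_Icc]
      intro q hq
      have hq2 : q ∈ Ioo (0 : ℝ) (1 / 2) := ⟨hq.1, hq.2.trans hp⟩
      rw [(hd q hq2).deriv]
      have h1 := ratio_mono hβ0 hb hq2 ⟨hp0, hp⟩ hq.2.le
      beta_reduce at h1
      rw [div_le_iff₀ (L_pos hq2.1 hq2.2)] at h1
      rw [sub_nonpos, hσ]
      calc (1 - 2 * β) * Lg (β + (1 - 2 * β) * q)
          ≤ (1 - 2 * β) * (Lg (β + (1 - 2 * β) * p) / Lg p * Lg q) :=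
            mul_le_mul_of_nonneg_left h1 g2.le
        _ = _ := by ring
  have hmono : MonotoneOn (fun q : ℝ => Real.binEntropy (β + (1 - 2 * β) * q) -
      σ * Real.binEntropy q) (Icc p (1 / 2)) := by
    apply monotoneOn_of_deriv_nonneg (convex_Icc _ _) hc.continuousOn
    · rw [interior_Icc]
      exact fun x hx => (hd x ⟨hp0.trans hx.1, hx.2⟩).differentiableAt.differentiableWithinAt
    · rw [interior_Icc]
      intro q hq
      have hq2 : q ∈ Ioo (0 : ℝ) (1 / 2) := ⟨hp0.trans hq.1, hq.2⟩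
      rw [(hd q hq2).deriv]
      have h1 := ratio_mono hβ0 hb ⟨hp0, hp⟩ hq2 hq.1.le
      beta_reduce at h1
      rw [le_div_iff₀ (L_pos hq2.1 hq2.2)] at h1
      rw [sub_nonneg, hσ]
      calc (1 - 2 * β) * Lg (β + (1 - 2 * β) * p) / Lg p * Lg q
          = (1 - 2 * β) * (Lg (β + (1 - 2 * β) * p) / Lg p * Lg q) := by ring
        _ ≤ _ := mul_le_mul_of_nonneg_left h1 g2.le
  intro q hq0 hq1
  rcases le_total q p with h | h
  · have := hanti ⟨hq0, h⟩ ⟨hp0.le, le_rfl⟩ h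
    beta_reduce at this
    linarith
  · have := hmono ⟨le_rfl, hp.le⟩ ⟨h, hq1⟩ h
    beta_reduce at this
    linarith

/-- the entropy of two masses -/
lemma mass {a b : ℝ} (ha : 0 ≤ a) (hb : 0 ≤ b) (hab : 0 < a + b) :
    a * Real.log a + b * Real.log b =
      (a + b) * Real.log (a + b) - (a + b) * Real.binEntropy (b / (a + b)) := by
  rw [Real.binEntropy_eq_negMulLog_add_negMulLog_one_sub]
  have e1 : 1 - b / (a + b) = a / (a + b) := by field_simp; ring
  rw [e1]
  unfold Real.negMulLog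
  have h1 : ∀ x : ℝ, 0 ≤ x → (a + b) * (x / (a + b) * Real.log (x / (a + b))) =
      x * Real.log x - x * Real.log (a + b) := by
    intro x hx
    rcases eq_or_lt_of_le hx with h | h
    · rw [← h]
      simp
    · rw [Real.log_div h.ne' hab.ne']
      field_simp
  have h2 := h1 a ha
  have h3 := h1 b hb
  linear_combination -h2 - h3

/-- **The inequality for two masses.** -/
lemma two_masses {a b p : ℝ} (ha : 0 ≤ a) (hb : 0 ≤ b) (hp0 : 0 < p) (hp : p < 1 / 2) :
    ∃ s : ℝ, 0 ≤ s ∧ s ≤ a + b ∧ ∀ q : ℝ, 0 ≤ q → q ≤ 1 / 2 →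
      ((1 - q) * a + q * b) * Real.log ((1 - q) * a + q * b) +
        ((1 - q) * b + q * a) * Real.log ((1 - q) * b + q * a) + s * Real.binEntropy q ≤
      ((1 - p) * a + p * b) * Real.log ((1 - p) * a + p * b) +
        ((1 - p) * b + p * a) * Real.log ((1 - p) * b + p * a) + s * Real.binEntropy p := by
  wlog hab : b ≤ a generalizing a b with hw
  · obtain ⟨s, h1, h2, h3⟩ := hw hb ha (by linarith)
    refine ⟨s, h1, by linarith, fun q hq0 hq1 => ?_⟩
    have := h3 q hq0 hq1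
    linarith
  rcases eq_or_lt_of_le (add_nonneg ha hb) with h0 | h0
  · have ha0 : a = 0 := by linarith
    have hb0 : b = 0 := by linarith
    refine ⟨0, le_rfl, h0.le, fun q _ _ => ?_⟩
    rw [ha0, hb0]
    simp
  have hβ0 : 0 ≤ b / (a + b) := by positivity
  have hβ1 : b / (a + b) ≤ 1 / 2 := by
    rw [div_le_div_iff₀ h0 (by norm_num)]
    linarith
  obtain ⟨σ, h1, h2, h3⟩ := line hβ0 hβ1 hp0 hp
  refine ⟨(a + b) * σ, by positivity, by nlinarith, fun q hq0 hq1 => ?_⟩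
  have key : ∀ x : ℝ, 0 ≤ x → x ≤ 1 / 2 →
      ((1 - x) * a + x * b) * Real.log ((1 - x) * a + x * b) +
        ((1 - x) * b + x * a) * Real.log ((1 - x) * b + x * a) =
      (a + b) * Real.log (a + b) -
        (a + b) * Real.binEntropy (b / (a + b) + (1 - 2 * (b / (a + b))) * x) := by
    intro x hx0 hx1
    have e1 : (1 - x) * a + x * b + ((1 - x) * b + x * a) = a + b := by ring
    have h4 := mass (a := (1 - x) * a + x * b) (b := (1 - x) * b + x * a)
      (by nlinarith [mul_nonneg hx0 hb, mul_nonneg (by linarith : (0 : ℝ) ≤ 1 - x) ha])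
      (by nlinarith [mul_nonneg hx0 ha, mul_nonneg (by linarith : (0 : ℝ) ≤ 1 - x) hb])
      (by rw [e1]; exact h0)
    rw [e1] at h4
    rw [h4]
    congr 3
    field_simp
    ring
  rw [key q hq0 hq1, key p hp0.le hp.le]
  have h5 := mul_le_mul_of_nonneg_left (h3 q hq0 hq1) h0.le
  linarith

end Pool.Agent.Helper84.Chan
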