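import Pool.Agent.Helper84.Chan.Sym
import Pool.Agent.Helper84.Thresh.Asym

/-!
Below the threshold the equivocation is exponentially small.
-/

set_option autoImplicit false

namespace Pool.Agent.Helper84.Chan

open Finset Filter Topology
open Pool.Agent.Helper89K9.GV (kern mix kern_pos kern_nonneg mix_pos ex)
open Pool.Agent.Helper84.Thresh
open Pool.Agent.Results.MP_0430e4_lc.ConstantWeightCriterion (IsCode H A R)

/-- a chord of the logarithm -/
lemma neg_log_le {B t : ℝ} (hB : Real.log 2 ≤ B) (ht : Real.exp (-B) ≤ t) (ht1 : t ≤ 1) :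
    -Real.log t ≤ 2 * B * (1 - t) := by
  have hlog : 0 < Real.log 2 := Real.log_pos (by norm_num)
  have he : Real.exp (-B) ≤ 1 / 2 := by
    rw [one_div, ← Real.exp_log (by norm_num : (0 : ℝ) < 2), ← Real.exp_neg]
    exact Real.exp_le_exp.2 (by linarith)
  have hpos := Real.exp_pos (-B)
  have h1 : 0 < 1 - Real.exp (-B) := by linarith
  have a0 : 0 ≤ (1 - t) / (1 - Real.exp (-B)) := div_nonneg (by linarith) h1.le
  have b0 : 0 ≤ (t - Real.exp (-B)) / (1 - Real.exp (-B)) := div_nonneg (by linarith) h1.le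
  have ab : (1 - t) / (1 - Real.exp (-B)) + (t - Real.exp (-B)) / (1 - Real.exp (-B)) = 1 := by
    field_simp
    ring
  have hc := (strictConcaveOn_log_Ioi.concaveOn).2 (Set.mem_Ioi.2 hpos)
    (Set.mem_Ioi.2 (one_pos : (0 : ℝ) < 1)) a0 b0 ab
  simp only [smul_eq_mul, Real.log_one, mul_zero, add_zero, Real.log_exp] at hc
  have e : (1 - t) / (1 - Real.exp (-B)) * Real.exp (-B) +
      (t - Real.exp (-B)) / (1 - Real.exp (-B)) * 1 = t := by
    field_simp
    ring
  rw [e] at hc
  have h2 : (1 - t) / (1 - Real.exp (-B)) ≤ 2 * (1 - t) := by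
    rw [div_le_iff₀ h1]
    nlinarith
  have h3 := mul_le_mul_of_nonneg_right h2 (by linarith : 0 ≤ B)
  linarith

/-- the constant -/
noncomputable def Bc (p : ℝ) : ℝ := bt p + Real.log 2

variable {n : ℕ}

lemma post_ge {p : ℝ} (h0 : 0 < p) (h1 : p < 1 / 2) {C : Finset (Fin n → Bool)}
    (hC : C.Nonempty) (x y : Fin n → Bool) :
    Real.exp (-(n * Bc p)) ≤ kern p x y / mix p C y := by
  have hb := bt_pos h0 h1
  have hm := mix_pos h0 (by linarith : p < 1) hC y
  have hp : (0 : ℝ) < (1 - p) ^ n := pow_pos (by linarith) n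
  have hk : ∀ z, kern p z y ≤ (1 - p) ^ n := by
    intro z
    rw [kern_exp h0 (by linarith)]
    apply mul_le_of_le_one_right hp.le
    rw [← Real.exp_zero]
    apply Real.exp_le_exp.2
    have : 0 ≤ bt p * hammingDist z y := mul_nonneg hb.le (Nat.cast_nonneg _)
    linarith
  have hcard : (C.card : ℝ) ≤ 2 ^ n := by
    have := Finset.card_le_univ C
    rw [Fintype.card_fun, Fintype.card_bool, Fintype.card_fin] at this
    exact_mod_cast this
  have hmix : mix p C y ≤ 2 ^ n * (1 - p) ^ n := by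
    unfold mix
    refine (Finset.sum_le_sum fun z _ => hk z).trans ?_
    rw [Finset.sum_const, nsmul_eq_mul]
    exact mul_le_mul_of_nonneg_right hcard hp.le
  rw [le_div_iff₀ hm]
  have hx : (1 - p) ^ n * Real.exp (-(bt p * n)) ≤ kern p x y := by
    rw [kern_exp h0 (by linarith)]
    apply mul_le_mul_of_nonneg_left _ hp.le
    apply Real.exp_le_exp.2
    have : (hammingDist x y : ℝ) ≤ n := by exact_mod_cast hd_le x y
    nlinarith
  have e : Real.exp (-(n * Bc p)) = Real.exp (-(bt p * n)) / 2 ^ n := by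
    unfold Bc
    rw [show -((n : ℝ) * (bt p + Real.log 2)) = -(bt p * n) - n * Real.log 2 by ring,
      Real.exp_sub, Real.exp_nat_mul, Real.exp_log (by norm_num)]
  rw [e]
  have h2 : (0 : ℝ) < 2 ^ n := by positivity
  calc Real.exp (-(bt p * n)) / 2 ^ n * mix p C y
      ≤ Real.exp (-(bt p * n)) / 2 ^ n * (2 ^ n * (1 - p) ^ n) :=
        mul_le_mul_of_nonneg_left hmix (by positivity)
    _ = (1 - p) ^ n * Real.exp (-(bt p * n)) := by
        field_simp
    _ ≤ _ := hx

/-- the equivocation and the error probability -/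
lemma En_le {p : ℝ} (h0 : 0 < p) (h1 : p < 1 / 2) (hn : 1 ≤ n) {C : Finset (Fin n → Bool)}
    (hC : C.Nonempty) : En (fun _ => p) C ≤ C.card * (4 * (n * Bc p) * optErr p C) := by
  have hlog : 0 < Real.log 2 := Real.log_pos (by norm_num)
  have hb := bt_pos h0 h1
  have hc : (0 : ℝ) < C.card := by exact_mod_cast hC.card_pos
  have hn1 : (1 : ℝ) ≤ n := by exact_mod_cast hn
  have hB : Real.log 2 ≤ n * Bc p := by
    unfold Bc
    nlinarith
  have h2 : En (fun _ => p) C ≤ 2 * (n * Bc p) * psi p C := by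
    unfold En psi miss ex
    rw [Finset.mul_sum]
    apply Finset.sum_le_sum
    intro x hx
    rw [Finset.mul_sum]
    apply Finset.sum_le_sum
    intro y _
    rw [kv_const]
    have e : mv (fun _ => p) C y = mix p C y := rfl
    rw [e]
    have hk := kern_pos h0 (by linarith : p < 1) x y
    have hm := mix_pos h0 (by linarith : p < 1) hC y
    have h3 := neg_log_le hB (post_ge h0 h1 hC x y) (by
      rw [div_le_one hm]
      exact Finset.single_le_sum (f := fun x => kern p x y)
        (fun _ _ => kern_nonneg h0.le (by linarith) _ _) hx)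
    rw [Real.log_div hk.ne' hm.ne'] at h3
    have h4 := mul_le_mul_of_nonneg_left h3 hk.le
    calc kern p x y * (Real.log (mix p C y) - Real.log (kern p x y))
        = kern p x y * -(Real.log (kern p x y) - Real.log (mix p C y)) := by ring
      _ ≤ _ := h4
      _ = _ := by ring
  have h3 := optErr_sq h0 (by linarith) hC
  have h4 : psi p C ≤ 2 * optErr p C * C.card := by
    have h5 : psi p C / C.card ≤ 2 * optErr p C := by nlinarith [sq_nonneg (optErr p C)]
    rwa [div_le_iff₀ hc] at h5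
  have h5 : 0 ≤ 2 * (n * Bc p) := by linarith
  calc _ ≤ _ := h2
    _ ≤ 2 * (n * Bc p) * (2 * optErr p C * C.card) := mul_le_mul_of_nonneg_left h4 h5
    _ = _ := by ring

/-- **Below the threshold the equivocation is exponentially small.** -/
lemma En_small {δ p : ℝ} (hδ : 0 < δ) (h0 : 0 < p) (hp : p < th δ) :
    ∃ c : ℝ, 0 < c ∧ ∀ᶠ n : ℕ in atTop, ∀ C : Finset (Fin n → Bool), C.Nonempty →
      IsCode ⌈δ * n⌉₊ C → En (fun _ => p) C ≤ C.card * Real.exp (-(c * n)) := by
  have h1 : p < 1 / 2 := hp.trans_le (th_le_half δ)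
  obtain ⟨c, hc, h⟩ := below hδ h0 hp
  refine ⟨c / 2, by positivity, ?_⟩
  have hlim : Tendsto (fun n : ℕ => 4 * Bc p * ((n : ℝ) * Real.exp (-(c / 2 * n)))) atTop
      (𝓝 0) := by
    have h2 := Real.tendsto_pow_mul_exp_neg_atTop_nhds_zero 1
    have h3 : Tendsto (fun n : ℕ => c / 2 * (n : ℝ)) atTop atTop :=
      (tendsto_natCast_atTop_atTop (R := ℝ)).const_mul_atTop (by positivity)
    have h4 := (h2.comp h3).const_mul (4 * Bc p * (2 / c))
    rw [mul_zero] at h4
    refine h4.congr fun n => ?_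
    simp only [Function.comp]
    field_simp
  have h5 := hlim.eventually (gt_mem_nhds (by norm_num : (0 : ℝ) < 1))
  filter_upwards [h, h5, eventually_ge_atTop 1] with n a1 a2 a3 C hC hcode
  refine (En_le h0 h1 a3 hC).trans ?_
  apply mul_le_mul_of_nonneg_left _ (Nat.cast_nonneg _)
  have hB : 0 ≤ Bc p := by
    have := bt_pos h0 h1
    have : 0 < Real.log 2 := Real.log_pos (by norm_num)
    unfold Bc
    linarith
  have h6 := (le_worst (δ := δ) h0 (by linarith) hC hcode).trans a1
  have h7 : 0 ≤ 4 * ((n : ℝ) * Bc p) := by positivity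
  calc 4 * (n * Bc p) * optErr p C ≤ 4 * (n * Bc p) * Real.exp (-(c * n)) :=
        mul_le_mul_of_nonneg_left h6 h7
    _ = (4 * Bc p * ((n : ℝ) * Real.exp (-(c / 2 * n)))) * Real.exp (-(c / 2 * n)) := by
        rw [show -(c * (n : ℝ)) = -(c / 2 * n) + -(c / 2 * n) by ring, Real.exp_add]
        ring
    _ ≤ 1 * Real.exp (-(c / 2 * n)) :=
        mul_le_mul_of_nonneg_right a2.le (Real.exp_pos _).le
    _ = _ := one_mul _

end Pool.Agent.Helper84.Chan
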