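import Pool.Agent.Helper84.Chan.Tens

/-!
Symmetric channels: the reduction to mixtures of binary symmetric channels, and the error
probability of the maximum likelihood decoder.
-/

set_option autoImplicit false

namespace Pool.Agent.Helper84.Chan

open Finset
open Pool.Agent.Helper89K9.GV

variable {n : ℕ} {Y : Type} [Fintype Y]

/-- a symmetric channel -/
structure Sym (P : Bool → Y → ℝ) (π : Y → Y) : Prop where
  nonneg : ∀ b y, 0 ≤ P b y
  sum : ∀ b, ∑ y, P b y = 1
  inv : ∀ y, π (π y) = y
  symm : ∀ b y, P (!b) (π y) = P b y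

/-- the probability that the channel changes the word `x` into the word `y` -/
noncomputable def kc (P : Bool → Y → ℝ) (x : Fin n → Bool) (y : Fin n → Y) : ℝ :=
  ∏ i, P (x i) (y i)

/-- the sum of the transition probabilities -/
noncomputable def mc (P : Bool → Y → ℝ) (C : Finset (Fin n → Bool)) (y : Fin n → Y) : ℝ :=
  ∑ x ∈ C, kc P x y

/-- the mean of the two transition probabilities -/
noncomputable def wt (P : Bool → Y → ℝ) (y : Y) : ℝ := (P false y + P true y) / 2

/-- the posterior probability of `true` -/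
noncomputable def rt (P : Bool → Y → ℝ) (y : Y) : ℝ := P true y / (P false y + P true y)

/-- the equivocation in natural units, times the number of the words -/
noncomputable def Ec (P : Bool → Y → ℝ) (C : Finset (Fin n → Bool)) : ℝ :=
  ∑ x ∈ C, ∑ y, kc P x y * (Real.log (mc P C y) - Real.log (kc P x y))

variable {P : Bool → Y → ℝ} {π : Y → Y}

lemma kc_nonneg (h : Sym P π) (x : Fin n → Bool) (y : Fin n → Y) : 0 ≤ kc P x y :=
  Finset.prod_nonneg fun _ _ => h.nonneg _ _

lemma sum_kc (h : Sym P π) (x : Fin n → Bool) : ∑ y, kc P x y = 1 := by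
  have h2 := Finset.prod_univ_sum (fun _ : Fin n => (univ : Finset Y)) (fun i y => P (x i) y)
  rw [Fintype.piFinset_univ] at h2
  unfold kc
  rw [← h2]
  simp [h.sum]

lemma kc_le_mc (h : Sym P π) {C : Finset (Fin n → Bool)} {x : Fin n → Bool} (hx : x ∈ C)
    (y : Fin n → Y) : kc P x y ≤ mc P C y :=
  Finset.single_le_sum (f := fun x => kc P x y) (fun _ _ => kc_nonneg h _ _) hx

lemma wt_nonneg (h : Sym P π) (y : Y) : 0 ≤ wt P y := by
  have h1 := h.nonneg false y
  have h2 := h.nonneg true y
  unfold wt
  linarith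

lemma sum_wt (h : Sym P π) : ∑ y, wt P y = 1 := by
  unfold wt
  rw [← Finset.sum_div, Finset.sum_add_distrib, h.sum, h.sum]
  norm_num

lemma rt_nonneg (h : Sym P π) (y : Y) : 0 ≤ rt P y :=
  div_nonneg (h.nonneg _ _) (add_nonneg (h.nonneg _ _) (h.nonneg _ _))

lemma rt_le_one (h : Sym P π) (y : Y) : rt P y ≤ 1 := by
  unfold rt
  apply div_le_one_of_le₀ _ (add_nonneg (h.nonneg _ _) (h.nonneg _ _))
  have := h.nonneg false y
  linarith

lemma P_eq0 (h : Sym P π) (b : Bool) (y : Y) : P b y = 2 * wt P y * nz (rt P y) b false := by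
  have h1 := h.nonneg false y
  have h2 := h.nonneg true y
  unfold wt rt nz
  rcases eq_or_lt_of_le (add_nonneg h1 h2) with h0 | h0
  · have e1 : P false y = 0 := by linarith
    have e2 : P true y = 0 := by linarith
    cases b <;> simp [e1, e2]
  · have h3 := h0.ne'
    cases b
    · simp only [ne_eq, not_true_eq_false, if_false]
      field_simp
      ring
    · simp only [ne_eq, Bool.true_eq_false, not_false_eq_true, if_true]
      field_simp

lemma P_eq (h : Sym P π) (b s : Bool) (y : Y) :
    P b (if s then π y else y) = 2 * wt P y * nz (rt P y) b s := by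
  cases s
  · exact P_eq0 h b y
  · have e := h.symm (!b) y
    rw [Bool.not_not] at e
    simp only [if_true]
    rw [e, P_eq0 h (!b) y]
    congr 1
    unfold nz
    cases b <;> simp

/-- changing the received word -/
def act (π : Y → Y) (s : Fin n → Bool) (y : Fin n → Y) : Fin n → Y :=
  fun k => if s k then π (y k) else y k

lemma act_act (h : Sym P π) (s : Fin n → Bool) (y : Fin n → Y) : act π s (act π s y) = y := by
  funext k
  unfold act
  by_cases hs : s k
  · simp [hs, h.inv]
  · simp [hs]

lemma sum_act (h : Sym P π) (s : Fin n → Bool) (g : (Fin n → Y) → ℝ) :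
    ∑ y, g (act π s y) = ∑ y, g y := by
  let e : (Fin n → Y) ≃ (Fin n → Y) := ⟨act π s, act π s, act_act h s, act_act h s⟩
  exact Fintype.sum_equiv e _ _ (fun y => rfl)

lemma kc_act (h : Sym P π) (x s : Fin n → Bool) (y : Fin n → Y) :
    kc P x (act π s y) = 2 ^ n * (∏ k, wt P (y k)) * kv (fun k => rt P (y k)) x s := by
  unfold kc act kv
  simp_rw [P_eq h]
  rw [Finset.prod_mul_distrib, Finset.prod_mul_distrib, Finset.prod_const, Finset.card_univ,
    Fintype.card_fin]

lemma mc_act (h : Sym P π) (C : Finset (Fin n → Bool)) (s : Fin n → Bool) (y : Fin n → Y) :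
    mc P C (act π s y) = 2 ^ n * (∏ k, wt P (y k)) * mv (fun k => rt P (y k)) C s := by
  unfold mc mv
  rw [Finset.mul_sum]
  exact Finset.sum_congr rfl fun x _ => kc_act h x s y

/-- **The reduction to mixtures of binary symmetric channels.** -/
lemma Ec_eq (h : Sym P π) (C : Finset (Fin n → Bool)) :
    Ec P C = ∑ y : Fin n → Y, (∏ k, wt P (y k)) * En (fun k => rt P (y k)) C := by
  set g : (Fin n → Y) → ℝ := fun y =>
    ∑ x ∈ C, kc P x y * (Real.log (mc P C y) - Real.log (kc P x y)) with hg
  have e1 : Ec P C = ∑ y, g y := by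
    unfold Ec
    rw [Finset.sum_comm]
  have e2 : ∀ (s : Fin n → Bool) (y : Fin n → Y), g (act π s y) =
      2 ^ n * ((∏ k, wt P (y k)) * ∑ x ∈ C, kv (fun k => rt P (y k)) x s *
        (Real.log (mv (fun k => rt P (y k)) C s) - Real.log (kv (fun k => rt P (y k)) x s))) := by
    intro s y
    simp only [hg]
    rw [Finset.mul_sum, Finset.mul_sum]
    apply Finset.sum_congr rfl
    intro x hx
    rw [kc_act h, mc_act h]
    by_cases hW : (∏ k, wt P (y k)) = 0
    · rw [hW]
      simp
    by_cases hk : kv (fun k => rt P (y k)) x s = 0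
    · rw [hk]
      simp
    have hm : mv (fun k => rt P (y k)) C s ≠ 0 := by
      have h1 := kv_le_mv (p := fun k => rt P (y k)) (fun _ => rt_nonneg h _)
        (fun _ => rt_le_one h _) hx s
      have h2 : 0 < kv (fun k => rt P (y k)) x s :=
        lt_of_le_of_ne (kv_nonneg (fun _ => rt_nonneg h _) (fun _ => rt_le_one h _) x s)
          (Ne.symm hk)
      linarith
    have h2n : (2 : ℝ) ^ n ≠ 0 := by positivity
    rw [Real.log_mul (mul_ne_zero h2n hW) hm, Real.log_mul (mul_ne_zero h2n hW) hk]
    ring
  have e3 : (2 : ℝ) ^ n * ∑ y, g y =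
      2 ^ n * ∑ y : Fin n → Y, (∏ k, wt P (y k)) * En (fun k => rt P (y k)) C := by
    have e4 : ∑ s : Fin n → Bool, ∑ y, g (act π s y) = 2 ^ n * ∑ y, g y := by
      rw [Finset.sum_congr rfl fun s _ => sum_act h s g, Finset.sum_const, Finset.card_univ,
        nsmul_eq_mul]
      congr 1
      rw [Fintype.card_fun]
      simp
    rw [← e4, Finset.sum_comm, Finset.mul_sum]
    apply Finset.sum_congr rfl
    intro y _
    simp_rw [e2]
    rw [← Finset.mul_sum, ← Finset.mul_sum]
    unfold En
    rw [Finset.sum_comm]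
  rw [e1]
  exact mul_left_cancel₀ (by positivity) e3

/-- the error probability of the maximum likelihood decoder -/
lemma map_bound (h : Sym P π) {C : Finset (Fin n → Bool)} (hC : C.Nonempty) :
    ∃ D : (Fin n → Y) → (Fin n → Bool),
      ∑ x ∈ C, ∑ y, (if D y ≠ x then kc P x y else 0) ≤ Ec P C := by
  classical
  have hmax := fun y : Fin n → Y => Finset.exists_max_image C (fun x => kc P x y) hC
  choose D hD hD2 using hmax
  refine ⟨D, ?_⟩
  unfold Ec
  rw [Finset.sum_comm, Finset.sum_comm (s := C)]
  apply Finset.sum_le_sum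
  intro y _
  have e1 : ∑ x ∈ C, (if D y ≠ x then kc P x y else 0) = mc P C y - kc P (D y) y := by
    unfold mc
    rw [← Finset.add_sum_erase C _ (hD y), ← Finset.add_sum_erase C (fun x => kc P x y) (hD y)]
    simp only [ne_eq, not_true_eq_false, if_false]
    rw [zero_add, add_sub_cancel_left]
    apply Finset.sum_congr rfl
    intro x hx
    rw [if_pos (Finset.ne_of_mem_erase hx).symm]
  rw [e1]
  have hm0 : 0 ≤ mc P C y := Finset.sum_nonneg fun _ _ => kc_nonneg h _ _
  rcases eq_or_lt_of_le hm0 with hm | hm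
  · have e2 : ∀ x ∈ C, kc P x y = 0 := fun x hx =>
      le_antisymm (by rw [hm]; exact kc_le_mc h hx y) (kc_nonneg h _ _)
    rw [← hm, e2 _ (hD y), Finset.sum_eq_zero fun x hx => by rw [e2 x hx, zero_mul], sub_zero]
  · have e2 : mc P C y - kc P (D y) y =
        ∑ x ∈ C, kc P x y * (1 - kc P (D y) y / mc P C y) := by
      rw [← Finset.sum_mul]
      change _ = mc P C y * _
      field_simp
    rw [e2]
    apply Finset.sum_le_sum
    intro x hx
    rcases eq_or_lt_of_le (kc_nonneg h x y) with hk | hk
    · rw [← hk]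
      simp
    apply mul_le_mul_of_nonneg_left _ hk.le
    have h1 := Real.add_one_le_exp (Real.log (kc P x y) - Real.log (mc P C y))
    rw [Real.exp_sub, Real.exp_log hk, Real.exp_log hm] at h1
    have h2 : kc P x y / mc P C y ≤ kc P (D y) y / mc P C y :=
      div_le_div_of_nonneg_right (hD2 y x hx) hm.le
    linarith

end Pool.Agent.Helper84.Chan
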