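import Pool.Agent.Helper84.Chan.Vec

/-!
The equivocation of a code on a symmetric channel is at most the one on the binary symmetric
channel of the same capacity.
-/

set_option autoImplicit false

namespace Pool.Agent.Helper84.Chan

open Finset
open Pool.Agent.Helper89K9.GV
open Pool.Agent.Helper84.Thresh (prod_sum_fun prod_lin S)

variable {n : ℕ} {Y : Type} [Fintype Y]

/-- the sum of the product measure -/
lemma sum_prod {w : Y → ℝ} (hw : ∑ y, w y = 1) : ∑ j : Fin n → Y, ∏ i, w (j i) = 1 := by
  have h := Finset.prod_univ_sum (fun _ : Fin n => (univ : Finset Y)) (fun _ y => w y)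
  rw [Fintype.piFinset_univ] at h
  rw [← h]
  simp [hw]

/-- resampling one letter -/
lemma resample {w : Y → ℝ} (hw : ∑ y, w y = 1) (i : Fin n) (F : (Fin n → Y) → ℝ) :
    ∑ j : Fin n → Y, (∏ k, w (j k)) * F j =
      ∑ j : Fin n → Y, (∏ k, w (j k)) * ∑ a, w a * F (Function.update j i a) := by
  classical
  have e1 : ∀ j : Fin n → Y, (∏ k, w (j k)) * ∑ a, w a * F (Function.update j i a) =
      ∑ a, (∏ k, w (j k)) * (w a * F (Function.update j i a)) := fun j => by rw [Finset.mul_sum]
  have e2 : ∀ j : Fin n → Y, (∏ k, w (j k)) * F j = ∑ a, (∏ k, w (j k)) * (w a * F j) := by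
    intro j
    rw [← Finset.mul_sum, ← Finset.sum_mul, hw, one_mul]
  simp_rw [e1, e2]
  rw [← Fintype.sum_prod_type' (f := fun (j : Fin n → Y) (a : Y) => (∏ k, w (j k)) * (w a * F j)),
    ← Fintype.sum_prod_type'
      (f := fun (j : Fin n → Y) (a : Y) => (∏ k, w (j k)) * (w a * F (Function.update j i a)))]
  let e : (Fin n → Y) × Y ≃ (Fin n → Y) × Y :=
    { toFun := fun x => (Function.update x.1 i x.2, x.1 i)
      invFun := fun x => (Function.update x.1 i x.2, x.1 i)
      left_inv := by
        rintro ⟨j, a⟩
        simp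
      right_inv := by
        rintro ⟨j, a⟩
        simp }
  symm
  apply Fintype.sum_equiv e
  rintro ⟨j, a⟩
  simp only [e, Equiv.coe_fn_mk]
  have e3 : (∏ k, w (Function.update j i a k)) = w a * ∏ k ∈ univ.erase i, w (j k) := by
    rw [← Finset.mul_prod_erase univ _ (Finset.mem_univ i), Function.update_self]
    congr 1
    apply Finset.prod_congr rfl
    intro k hk
    rw [Function.update_of_ne (Finset.ne_of_mem_erase hk)]
  have e4 : (∏ k, w (j k)) = w (j i) * ∏ k ∈ univ.erase i, w (j k) := by
    rw [← Finset.mul_prod_erase univ _ (Finset.mem_univ i)]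
  rw [e3, e4]
  ring

/-- one letter, for all crossover probabilities -/
lemma En_update' {p : Fin n → ℝ} (h0 : ∀ i, 0 ≤ p i) (h1 : ∀ i, p i ≤ 1) (i : Fin n)
    (C : Finset (Fin n → Bool)) {p0 : ℝ} (hp0 : 0 < p0) (hp1 : p0 < 1 / 2)
    {w q : Y → ℝ} (hw : ∀ y, 0 ≤ w y) (hw1 : ∑ y, w y = 1)
    (hq0 : ∀ y, 0 ≤ q y) (hq1 : ∀ y, q y ≤ 1)
    (hh : ∑ y, w y * Real.binEntropy (q y) ≤ Real.binEntropy p0) :
    ∑ y, w y * En (Function.update p i (q y)) C ≤ En (Function.update p i p0) C := by
  obtain ⟨s, hs, hs2⟩ := S_update' h0 h1 i C hp0 hp1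
  have e : ∀ q : ℝ, ∑ k, Real.binEntropy (Function.update p i q k) =
      Real.binEntropy q + ∑ k ∈ univ.erase i, Real.binEntropy (p k) := by
    intro q
    rw [← Finset.add_sum_erase univ _ (Finset.mem_univ i), Function.update_self]
    congr 1
    apply Finset.sum_congr rfl
    intro j hj
    rw [Function.update_of_ne (Finset.ne_of_mem_erase hj)]
  have h3 : ∀ y, w y * En (Function.update p i (q y)) C ≤
      w y * (En (Function.update p i p0) C - (C.card - s) * Real.binEntropy p0) +
        (C.card - s) * (w y * Real.binEntropy (q y)) := by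
    intro y
    have h4 := hs2 (q y) (hq0 y) (hq1 y)
    have h5 : En (Function.update p i (q y)) C ≤
        En (Function.update p i p0) C - (C.card - s) * Real.binEntropy p0 +
          (C.card - s) * Real.binEntropy (q y) := by
      rw [En_eq, En_eq, e, e]
      linarith
    calc _ ≤ w y * (En (Function.update p i p0) C - (C.card - s) * Real.binEntropy p0 +
          (C.card - s) * Real.binEntropy (q y)) := mul_le_mul_of_nonneg_left h5 (hw y)
      _ = _ := by ring
  refine (Finset.sum_le_sum fun y _ => h3 y).trans ?_
  rw [Finset.sum_add_distrib, ← Finset.sum_mul, ← Finset.mul_sum, hw1, one_mul]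
  have := mul_le_mul_of_nonneg_left hh (by linarith : 0 ≤ (C.card : ℝ) - s)
  linarith

/-- **The comparison with the binary symmetric channel.** -/
theorem hybrid (C : Finset (Fin n → Bool)) {p0 : ℝ} (hp0 : 0 < p0) (hp1 : p0 < 1 / 2)
    {w q : Y → ℝ} (hw : ∀ y, 0 ≤ w y) (hw1 : ∑ y, w y = 1)
    (hq0 : ∀ y, 0 ≤ q y) (hq1 : ∀ y, q y ≤ 1)
    (hh : ∑ y, w y * Real.binEntropy (q y) ≤ Real.binEntropy p0) :
    ∑ j : Fin n → Y, (∏ k, w (j k)) * En (fun k => q (j k)) C ≤ En (fun _ => p0) C := by
  classical
  have key : ∀ T : Finset (Fin n),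
      ∑ j : Fin n → Y, (∏ k, w (j k)) * En (fun k => if k ∈ T then q (j k) else p0) C ≤
        En (fun _ => p0) C := by
    intro T
    induction T using Finset.induction_on with
    | empty =>
      simp only [Finset.notMem_empty, if_false]
      rw [← Finset.sum_mul, sum_prod hw1, one_mul]
    | insert i T hi ih =>
      refine le_trans ?_ ih
      rw [resample hw1 i]
      apply Finset.sum_le_sum
      intro j _
      apply mul_le_mul_of_nonneg_left _ (Finset.prod_nonneg fun k _ => hw _)
      set P : Fin n → ℝ := fun k => if k ∈ T then q (j k) else p0 with hP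
      have hP0 : ∀ k, 0 ≤ P k := by
        intro k
        simp only [hP]
        split_ifs
        · exact hq0 _
        · exact hp0.le
      have hP1 : ∀ k, P k ≤ 1 := by
        intro k
        simp only [hP]
        split_ifs
        · exact hq1 _
        · linarith
      have e1 : ∀ a, (fun k => if k ∈ insert i T then q (Function.update j i a k) else p0) =
          Function.update P i (q a) := by
        intro a
        funext k
        by_cases hk : k = i
        · subst hk
          simp
        · rw [Function.update_of_ne hk, Function.update_of_ne hk]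
          simp only [Finset.mem_insert, hk, false_or, hP]
      have e2 : P = Function.update P i p0 := by
        have : P i = p0 := by
          simp only [hP, if_neg hi]
        rw [← this, Function.update_eq_self]
      simp_rw [e1]
      have h := En_update' hP0 hP1 i C hp0 hp1 hw hw1 hq0 hq1 hh
      rw [← e2] at h
      exact h
  have h := key univ
  simp only [Finset.mem_univ, if_true] at h
  exact h

end Pool.Agent.Helper84.Chan
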