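import Pool.Agent.Helper84.Thresh.Overlap
import Pool.Agent.Helper84.Chan.MGL

/-!
The equivocation of a code on a channel with a different crossover probability at each letter.
-/

set_option autoImplicit false

namespace Pool.Agent.Helper84.Chan

open Finset
open Pool.Agent.Helper89K9.GV
open Pool.Agent.Helper84.Thresh (fl fl_fl prod_sum_fun prod_lin sum_fl S)

variable {n : ℕ}

/-- the channel with crossover probability `p i` at the letter `i` -/
noncomputable def kv (p : Fin n → ℝ) (x y : Fin n → Bool) : ℝ := ∏ i, nz (p i) (x i) (y i)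

lemma kv_const (p : ℝ) (x y : Fin n → Bool) : kv (fun _ => p) x y = kern p x y := rfl

lemma kv_nonneg {p : Fin n → ℝ} (h0 : ∀ i, 0 ≤ p i) (h1 : ∀ i, p i ≤ 1) (x y : Fin n → Bool) :
    0 ≤ kv p x y := Finset.prod_nonneg fun _ _ => nz_nonneg (h0 _) (h1 _) _ _

lemma sum_kv (p : Fin n → ℝ) (x : Fin n → Bool) : ∑ y, kv p x y = 1 := by
  unfold kv
  rw [prod_sum_fun (fun i b => nz (p i) (x i) b)]
  exact Finset.prod_eq_one fun i _ => sum_nz (p i) (x i)

/-- the sum of the transition probabilities -/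
noncomputable def mv (p : Fin n → ℝ) (C : Finset (Fin n → Bool)) (y : Fin n → Bool) : ℝ :=
  ∑ x ∈ C, kv p x y

lemma mv_nonneg {p : Fin n → ℝ} (h0 : ∀ i, 0 ≤ p i) (h1 : ∀ i, p i ≤ 1)
    (C : Finset (Fin n → Bool)) (y : Fin n → Bool) : 0 ≤ mv p C y :=
  Finset.sum_nonneg fun _ _ => kv_nonneg h0 h1 _ _

lemma kv_le_mv {p : Fin n → ℝ} (h0 : ∀ i, 0 ≤ p i) (h1 : ∀ i, p i ≤ 1)
    {C : Finset (Fin n → Bool)} {x : Fin n → Bool} (hx : x ∈ C) (y : Fin n → Bool) :
    kv p x y ≤ mv p C y :=
  Finset.single_le_sum (f := fun x => kv p x y) (fun _ _ => kv_nonneg h0 h1 _ _) hx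

/-- the equivocation in natural units, times the number of the words -/
noncomputable def En (p : Fin n → ℝ) (C : Finset (Fin n → Bool)) : ℝ :=
  ∑ x ∈ C, ∑ y, kv p x y * (Real.log (mv p C y) - Real.log (kv p x y))

lemma sum_nz_log (p : ℝ) (a : Bool) :
    ∑ b, nz p a b * Real.log (nz p a b) = -Real.binEntropy p := by
  rw [Real.binEntropy_eq_negMulLog_add_negMulLog_one_sub]
  unfold nz Real.negMulLog
  cases a <;> simp <;> ring

lemma kv_log (p : Fin n → ℝ) (x y : Fin n → Bool) :
    kv p x y * Real.log (kv p x y) = kv p x y * ∑ i, Real.log (nz (p i) (x i) (y i)) := by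
  by_cases h : kv p x y = 0
  · rw [h, zero_mul, zero_mul]
  · congr 1
    unfold kv at h ⊢
    rw [Real.log_prod]
    intro i hi h2
    exact h (Finset.prod_eq_zero hi h2)

lemma sum_kv_log (p : Fin n → ℝ) (x : Fin n → Bool) :
    ∑ y, kv p x y * Real.log (kv p x y) = -∑ i, Real.binEntropy (p i) := by
  simp_rw [kv_log]
  unfold kv
  rw [prod_lin (fun i b => nz (p i) (x i) b) (fun i b => Real.log (nz (p i) (x i) b))
    (fun i => sum_nz (p i) (x i)), ← Finset.sum_neg_distrib]
  exact Finset.sum_congr rfl fun i _ => sum_nz_log _ _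

lemma En_eq (p : Fin n → ℝ) (C : Finset (Fin n → Bool)) :
    En p C = S (mv p C) + C.card * ∑ i, Real.binEntropy (p i) := by
  unfold En S
  have e : ∀ x ∈ C, ∑ y, kv p x y * (Real.log (mv p C y) - Real.log (kv p x y)) =
      ∑ y, kv p x y * Real.log (mv p C y) + ∑ i, Real.binEntropy (p i) := by
    intro x _
    simp_rw [mul_sub]
    rw [Finset.sum_sub_distrib, sum_kv_log]
    ring
  rw [Finset.sum_congr rfl e, Finset.sum_add_distrib, Finset.sum_const, nsmul_eq_mul,
    Finset.sum_comm]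
  congr 1
  apply Finset.sum_congr rfl
  intro y _
  rw [← Finset.sum_mul]
  rfl

/-- the mass of the words with the letter `y i` at `i` -/
noncomputable def Av (p : Fin n → ℝ) (i : Fin n) (C : Finset (Fin n → Bool))
    (y : Fin n → Bool) : ℝ :=
  ∑ x ∈ C, if x i = y i then ∏ j ∈ univ.erase i, nz (p j) (x j) (y j) else 0

lemma Av_nonneg {p : Fin n → ℝ} (h0 : ∀ i, 0 ≤ p i) (h1 : ∀ i, p i ≤ 1) (i : Fin n)
    (C : Finset (Fin n → Bool)) (y : Fin n → Bool) : 0 ≤ Av p i C y := by
  unfold Av
  apply Finset.sum_nonneg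
  intro x _
  split_ifs
  · exact Finset.prod_nonneg fun _ _ => nz_nonneg (h0 _) (h1 _) _ _
  · exact le_rfl

lemma mv_update (p : Fin n → ℝ) (i : Fin n) (q : ℝ) (C : Finset (Fin n → Bool))
    (y : Fin n → Bool) :
    mv (Function.update p i q) C y = (1 - q) * Av p i C y + q * Av p i C (fl i y) := by
  unfold mv Av
  rw [Finset.mul_sum, Finset.mul_sum, ← Finset.sum_add_distrib]
  apply Finset.sum_congr rfl
  intro x _
  have e1 : kv (Function.update p i q) x y =
      nz q (x i) (y i) * ∏ j ∈ univ.erase i, nz (p j) (x j) (y j) := by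
    unfold kv
    rw [← Finset.mul_prod_erase univ _ (Finset.mem_univ i), Function.update_self]
    congr 1
    apply Finset.prod_congr rfl
    intro j hj
    rw [Function.update_of_ne (Finset.ne_of_mem_erase hj)]
  have e2 : ∏ j ∈ univ.erase i, nz (p j) (x j) (fl i y j) =
      ∏ j ∈ univ.erase i, nz (p j) (x j) (y j) := by
    apply Finset.prod_congr rfl
    intro j hj
    unfold fl
    rw [Function.update_of_ne (Finset.ne_of_mem_erase hj)]
  have e3 : fl i y i = !(y i) := by
    unfold fl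
    rw [Function.update_self]
  rw [e1, e2, e3]
  unfold nz
  cases x i <;> cases y i <;> simp

lemma sum_Av (p : Fin n → ℝ) (i : Fin n) (C : Finset (Fin n → Bool)) :
    ∑ y, Av p i C y = C.card := by
  have h1 : ∑ y, mv (Function.update p i 0) C y = C.card := by
    unfold mv
    rw [Finset.sum_comm]
    rw [Finset.sum_congr rfl fun x _ => sum_kv _ x]
    simp
  rw [← h1]
  apply Finset.sum_congr rfl
  intro y _
  rw [mv_update]
  ring

/-- **One letter.** -/
lemma S_update {p : Fin n → ℝ} (h0 : ∀ i, 0 ≤ p i) (h1 : ∀ i, p i ≤ 1) (i : Fin n)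
    (C : Finset (Fin n → Bool)) {p0 : ℝ} (hp0 : 0 < p0) (hp1 : p0 < 1 / 2) :
    ∃ s : ℝ, s ≤ C.card ∧ ∀ q : ℝ, 0 ≤ q → q ≤ 1 / 2 →
      S (mv (Function.update p i q) C) + s * Real.binEntropy q ≤
        S (mv (Function.update p i p0) C) + s * Real.binEntropy p0 := by
  have h2 := fun y : Fin n → Bool => two_masses (Av_nonneg h0 h1 i C y)
    (Av_nonneg h0 h1 i C (fl i y)) hp0 hp1
  choose s hs0 hs1 hs2 using h2
  have hS : ∀ q : ℝ, 2 * S (mv (Function.update p i q) C) = ∑ y,
      (((1 - q) * Av p i C y + q * Av p i C (fl i y)) *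
        Real.log ((1 - q) * Av p i C y + q * Av p i C (fl i y)) +
      ((1 - q) * Av p i C (fl i y) + q * Av p i C y) *
        Real.log ((1 - q) * Av p i C (fl i y) + q * Av p i C y)) := by
    intro q
    rw [Finset.sum_add_distrib, two_mul]
    unfold S
    congr 1
    · apply Finset.sum_congr rfl
      intro y _
      rw [mv_update]
    · rw [← sum_fl i]
      apply Finset.sum_congr rfl
      intro y _
      rw [mv_update, fl_fl]
  refine ⟨(∑ y, s y) / 2, ?_, fun q hq0 hq1 => ?_⟩
  · have h3 : ∑ y, s y ≤ ∑ y, (Av p i C y + Av p i C (fl i y)) :=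
      Finset.sum_le_sum fun y _ => hs1 y
    rw [Finset.sum_add_distrib, sum_fl i (Av p i C), sum_Av] at h3
    linarith
  · have h4 : 2 * S (mv (Function.update p i q) C) + (∑ y, s y) * Real.binEntropy q ≤
        2 * S (mv (Function.update p i p0) C) + (∑ y, s y) * Real.binEntropy p0 := by
      rw [hS, hS, Finset.sum_mul, Finset.sum_mul, ← Finset.sum_add_distrib,
        ← Finset.sum_add_distrib]
      exact Finset.sum_le_sum fun y _ => hs2 y q hq0 hq1
    linarith

/-- one letter, for all crossover probabilities -/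
lemma S_update' {p : Fin n → ℝ} (h0 : ∀ i, 0 ≤ p i) (h1 : ∀ i, p i ≤ 1) (i : Fin n)
    (C : Finset (Fin n → Bool)) {p0 : ℝ} (hp0 : 0 < p0) (hp1 : p0 < 1 / 2) :
    ∃ s : ℝ, s ≤ C.card ∧ ∀ q : ℝ, 0 ≤ q → q ≤ 1 →
      S (mv (Function.update p i q) C) + s * Real.binEntropy q ≤
        S (mv (Function.update p i p0) C) + s * Real.binEntropy p0 := by
  obtain ⟨s, hs, hs2⟩ := S_update h0 h1 i C hp0 hp1
  refine ⟨s, hs, fun q hq0 hq1 => ?_⟩
  rcases le_total q (1 / 2) with h | h
  · exact hs2 q hq0 h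
  · have h2 := hs2 (1 - q) (by linarith) (by linarith)
    rw [Real.binEntropy_one_sub] at h2
    have e : S (mv (Function.update p i (1 - q)) C) = S (mv (Function.update p i q) C) := by
      unfold S
      rw [← sum_fl i]
      apply Finset.sum_congr rfl
      intro y _
      rw [mv_update, mv_update, fl_fl]
      congr 1
      · ring
      · congr 1
        ring
    rw [e] at h2
    exact h2

end Pool.Agent.Helper84.Chan
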